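import Pool.Agent.H57.StrA

set_option autoImplicit false

namespace Pool.Agent.Results.MP_b18e8e_lc.Singular

open Cardinal

/-- There is a group of cardinality `κ` without a good subset of cardinality `κ`. -/
def Strange (κ : Cardinal.{0}) : Prop :=
  ∃ (G : Type) (_ : Group G), #G = κ ∧
    ¬ ∃ H : Set G, #H = κ ∧ ∀ x ∈ H, ∀ y ∈ H, ∀ z ∈ H, x⁻¹ * y = y⁻¹ * z → x = z

theorem result (κ : Cardinal.{0}) (h1 : κ.IsStrongLimit) (h2 : κ.IsSingular) : ¬ Strange κ :=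
  fun ⟨_, _, h3, h4⟩ => h4 (H57.Str.sing h1 h2 h3)

end Pool.Agent.Results.MP_b18e8e_lc.Singular
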